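import Pool.Agent.Lib_helper4.ZetaProof
import Pool.Agent.Lib_helper4.ZetaRational

/-!
# A pole of a class counting zeta function of a graphical group outside `½ℤ`

The definitions (`GG`, its group structure, `ccNum`, `IsZetaCC`, `graph9`) are in
`Pool.Agent.Lib_helper4.ZetaDefs`.
-/

namespace Pool.Agent.Results.MP_3df142_al.PoleThirds

open IsLocalRing Pool.Agent.Lib_helper4.GraphicalZeta

/-- For every compact DVR `𝔒` the class counting zeta function of `G_Γ ⊗ 𝔒`, `Γ = graph9`, has a
meromorphic continuation to `ℂ`, and every such continuation has a pole at `37/3`. -/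
theorem result (O : Type) [CommRing O] [IsDomain O] [IsDiscreteValuationRing O]
    [IsAdicComplete (maximalIdeal O) O] [Finite (ResidueField O)] :
    (∃ Z : ℂ → ℂ, IsZetaCC graph9 O Z) ∧
      ∀ Z : ℂ → ℂ, IsZetaCC graph9 O Z → meromorphicOrderAt Z (37 / 3) < 0 := by
  refine ⟨exists_isZetaCC graph9 O, fun Z hZ => ?_⟩
  have h := pole_graph9 O hZ
  have e : (((37 / 3 : ℝ) : ℝ) : ℂ) = 37 / 3 := by push_cast; rfl
  rw [e] at h
  exact h

end Pool.Agent.Results.MP_3df142_al.PoleThirds
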